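import Pool.Agent.Work.MP_8dbde4_lc.Om.Example

/-!
# FPC versus FP for languages over homogeneous C-relations, all branching numbers

* The domain is the set `Word c` of the words `ℚ → K` which differ from `c` in finitely many
  places, `K` countable; `Cc z x y` says that `z` splits off from `x` and `y` first: this is the
  homogeneous C-relation with `card K` branches (`2 ≤ card K ≤ ω`).
* `AutInv`: invariance under all automorphisms of the C-relation (first-order definability in it).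
* For every structure `𝔅` of finite signature with such relations in which the C-relation is
  primitive positive definable, CSP(𝔅) is in FPC iff it is in FP. Explicit criteria: for `K`
  finite, CSP(𝔅) is the constraint satisfaction problem of the restriction of `𝔅` to the binary
  subtree, and this restriction is Horn over first splits; for `K` infinite, this, or all relations
  of `𝔅` are Horn over first splits.
-/

namespace Pool.Agent.Results.MP_8dbde4_lc.CRelations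

open Pool.Agent.Work.MP_8dbde4_lc.TS Pool.Agent.Work.MP_8dbde4_lc.Bra
open Pool.Agent.Work.MP_8dbde4_lc.Tree (Word Cc RFBH)
open Pool.Agent.Work.MP_8dbde4_lc.Phy (PP HornC Cst withR Even4)
open Pool.Agent.Work.MP_8dbde4_lc.Om (HornR)

theorem result :
    -- (1) question Q1, and the templates are reducts of countable finitely bounded homogeneous
    -- structures
    (∀ (K : Type) [Countable K] (c : ℚ → K) (σ : Sig) (𝔅 : Str σ (Word c)),
      (∀ R, AutInv (𝔅.rel R)) → PP 𝔅 (fun v : Fin 3 → Word c => Cc (v 0) (v 1) (v 2)) →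
      (InFPC (CSP 𝔅) ↔ InFP (CSP 𝔅)) ∧ RFBH 𝔅) ∧
    -- (2) the classification for finite branching numbers; `ι` is an embedding of the binary tree
    (∀ (K : Type) [Finite K] (c : ℚ → K) (σ : Sig) (𝔅 : Str σ (Word c)),
      (∀ R, AutInv (𝔅.rel R)) → PP 𝔅 (fun v : Fin 3 → Word c => Cc (v 0) (v 1) (v 2)) →
      ∀ ι : Word c₂ → Word c, Function.Injective ι → (∀ x y z, Cc x y z ↔ Cc (ι x) (ι y) (ι z)) →
      (InFP (CSP 𝔅) ↔ (∀ R, HornC ((pull 𝔅 ι).rel R)) ∧
        ∀ (A : Type) [Finite A] (𝔄 : Str σ A), CSP 𝔅 A 𝔄 ↔ CSP (pull 𝔅 ι) A 𝔄)) ∧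
    -- (3) the classification for the infinite branching number: if threefold branching is
    -- primitive positive definable all relations are Horn over first splits, otherwise as in (2)
    (∀ (c : ℚ → ℕ) (σ : Sig) (𝔅 : Str σ (Word c)),
      (∀ R, AutInv (𝔅.rel R)) → PP 𝔅 (fun v : Fin 3 → Word c => Cc (v 0) (v 1) (v 2)) →
      ∀ ι : Word c₂ → Word c, Function.Injective ι → (∀ x y z, Cc x y z ↔ Cc (ι x) (ι y) (ι z)) →
      (InFP (CSP 𝔅) ↔ (∀ R, HornR (𝔅.rel R)) ∨ ((∀ R, HornC ((pull 𝔅 ι).rel R)) ∧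
        ∀ (A : Type) [Finite A] (𝔄 : Str σ A), CSP 𝔅 A 𝔄 ↔ CSP (pull 𝔅 ι) A 𝔄)) ∧
      (PP 𝔅 (fun v : Fin 3 → Word c => Star (v 0) (v 1) (v 2)) →
        (InFP (CSP 𝔅) ↔ ∀ R, HornR (𝔅.rel R))) ∧
      (¬ PP 𝔅 (fun v : Fin 3 → Word c => Star (v 0) (v 1) (v 2)) →
        (InFP (CSP 𝔅) ↔ (∀ R, HornC ((pull 𝔅 ι).rel R)) ∧
          ∀ (A : Type) [Finite A] (𝔄 : Str σ A), CSP 𝔅 A 𝔄 ↔ CSP (pull 𝔅 ι) A 𝔄))) ∧
    (∀ (K : Type) (c : ℚ → K), (∃ a b : K, a ≠ b) → ∃ ι : Word c₂ → Word c,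
      Function.Injective ι ∧ ∀ x y z, Cc x y z ↔ Cc (ι x) (ι y) (ι z)) ∧
    -- (4) two branches (phylogeny languages): all relations are Horn over first splits
    (∀ (c : ℚ → Bool) (σ : Sig) (𝔅 : Str σ (Word c)), (∀ R, AutInv (𝔅.rel R)) →
      PP 𝔅 (fun v : Fin 3 → Word c => Cc (v 0) (v 1) (v 2)) →
      (InFP (CSP 𝔅) ↔ ∀ R, HornC (𝔅.rel R))) ∧
    -- (5) the C-relations are homogeneous, and automorphism invariance is invariance under
    -- equality of the splits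
    (∀ (K : Type) [Countable K] (c : ℚ → K) (X : Type) [Finite X] (v w : X → Word c),
      Same v w →
      ∃ g : Word c ≃ Word c, (∀ x y z, Cc x y z ↔ Cc (g x) (g y) (g z)) ∧ ∀ x, g (v x) = w x) ∧
    -- (6) examples: rooted triples are in FP; rooted triples with the relation `the first split
    -- of x, y, z, u has an even number of them on each side` are not in FPC (two branches);
    -- rooted triples with the relation `x, y, z are different and split at the same place` are not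
    -- in FPC for any finite number of branches, at least three, but in FP for infinitely many
    -- branches
    (∀ c : ℚ → Bool, InFP (CSP (Cst c)) ∧ ¬ InFPC (CSP (withR (Even4 (c := c))))) ∧
    (∀ (K : Type) [Finite K] (c : ℚ → K), (∃ a b d : K, a ≠ b ∧ b ≠ d ∧ a ≠ d) →
      ¬ InFPC (CSP (CN c))) ∧
    (∀ c : ℚ → ℕ, InFP (CSP (CN c))) := by
  refine ⟨fun K _ c σ 𝔅 hA hC => ?_, fun K _ c σ 𝔅 hA hC ι hi hι => ?_,
    fun c σ 𝔅 hA hC ι hi hι => ?_, fun K c hK => IOT_pf K c hK, fun c σ 𝔅 hA hC => ?_,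
    fun K _ c X _ v w h => Pool.Agent.Work.MP_8dbde4_lc.Om.homog_K h,
    fun c => ⟨Pool.Agent.Work.MP_8dbde4_lc.Phy.inFP_of_hornC _ (fun _ =>
      Pool.Agent.Work.MP_8dbde4_lc.Phy.hornC_C3), fun h => ?_⟩,
    fun K _ c hK => not_inFPC_CN c hK, fun c => Pool.Agent.Work.MP_8dbde4_lc.Om.inFP_CN c⟩
  · have hL : BLang 𝔅 := ⟨Pool.Agent.Work.MP_8dbde4_lc.Om.invU_of_autInvK hA, hC⟩
    exact ⟨⟨Pool.Agent.Work.MP_8dbde4_lc.Om.main_K hL,
      Pool.Agent.Work.MP_8dbde4_lc.Phy.F2C_pf σ _⟩,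
      Pool.Agent.Work.MP_8dbde4_lc.Om.rfbh_K hL.inv⟩
  · have hL : BLang 𝔅 := ⟨invU_of_autInv hA, hC⟩
    exact ⟨fun h => (class_main hL hi hι).1 (Pool.Agent.Work.MP_8dbde4_lc.Phy.F2C_pf σ _ h),
      inFP_of_class⟩
  · have hL : BLang 𝔅 := ⟨Pool.Agent.Work.MP_8dbde4_lc.Om.invU_of_autInvK hA, hC⟩
    refine ⟨⟨fun h => (Pool.Agent.Work.MP_8dbde4_lc.Om.class_w hL hi hι).1
      (Pool.Agent.Work.MP_8dbde4_lc.Phy.F2C_pf σ _ h), ?_⟩, fun hN => ⟨fun h =>
        Pool.Agent.Work.MP_8dbde4_lc.Om.hornR_of_inFPC ⟨hL.inv, hL.ppC, hN⟩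
          (Pool.Agent.Work.MP_8dbde4_lc.Phy.F2C_pf σ _ h),
        Pool.Agent.Work.MP_8dbde4_lc.Om.inFP_of_hornR 𝔅⟩, fun hN => ⟨fun h =>
        Pool.Agent.Work.MP_8dbde4_lc.Om.class_bin hL hN hi hι
          (Pool.Agent.Work.MP_8dbde4_lc.Phy.F2C_pf σ _ h), inFP_of_class⟩⟩
    rintro (h | h)
    · exact Pool.Agent.Work.MP_8dbde4_lc.Om.inFP_of_hornR 𝔅 h
    · exact inFP_of_class h
  · have hI : ∀ R, Pool.Agent.Work.MP_8dbde4_lc.Phy.Inv (𝔅.rel R) :=
      fun R => Pool.Agent.Work.MP_8dbde4_lc.Phy.inv_of_autInv (hA R)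
    exact ⟨fun h => Pool.Agent.Work.MP_8dbde4_lc.Phy.hornC_of_inFPC 𝔅 ⟨hI, hC⟩
      (Pool.Agent.Work.MP_8dbde4_lc.Phy.F2C_pf σ _ h),
      fun h => Pool.Agent.Work.MP_8dbde4_lc.Phy.inFP_of_hornC 𝔅 h⟩
  · exact Pool.Agent.Work.MP_8dbde4_lc.Phy.not_hornC_Even4
      (Pool.Agent.Work.MP_8dbde4_lc.Phy.hornC_of_inFPC _
        (Pool.Agent.Work.MP_8dbde4_lc.Phy.plang_withR
          Pool.Agent.Work.MP_8dbde4_lc.Phy.inv_Even4) h (Sum.inr ()))

end Pool.Agent.Results.MP_8dbde4_lc.CRelations
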