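import Pool.Agent.Work.MP_8dbde4_lc.Full.Main

/-!
# FPC versus FP for all phylogeny constraint satisfaction problems

* The domain is the set `Word c` of the words `ℚ → Bool` which differ from `c` in finitely many
  places; `Cc z x y` says that `z` splits off from `x` and `y` first: this is the homogeneous
  C-relation with two branches.
* `AutInv`: invariance under all automorphisms of the C-relation (first-order definability in it).
* For every structure of finite signature with such relations (the C-relation itself need not be
  definable in it) the constraint satisfaction problem is in FPC iff it is in FP iff every nonempty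
  relation contains a constant tuple, or all the relations are Horn over first splits, or all the
  relations are closed under the injective linear binary operations.
-/

namespace Pool.Agent.Results.MP_8dbde4_lc.PhylogenyCSPs

open Pool.Agent.Work.MP_8dbde4_lc.TS Pool.Agent.Work.MP_8dbde4_lc.Full
open Pool.Agent.Work.MP_8dbde4_lc.Tree (Word Cc RFBH)
open Pool.Agent.Work.MP_8dbde4_lc.Phy (HornC AutInv SameOn Cst withR Even4)

theorem result :
    -- (1) the classification, question Q1, and the templates are reducts of countable finitely
    -- bounded homogeneous structures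
    (∀ (c : ℚ → Bool) (σ : Sig) (𝔅 : Str σ (Word c)), (∀ R, AutInv (𝔅.rel R)) →
      (InFPC (CSP 𝔅) ↔ InFP (CSP 𝔅)) ∧
      (InFP (CSP 𝔅) ↔ Cst0 𝔅 ∨ (∀ R, HornC (𝔅.rel R)) ∨ ∀ R, EqH (𝔅.rel R)) ∧ RFBH 𝔅) ∧
    -- (2) the C-relation is homogeneous
    (∀ (c : ℚ → Bool) (X : Type) [Finite X] (v w : X → Word c), SameOn Set.univ v w →
      ∃ g : Word c ≃ Word c, (∀ x y z, Cc x y z ↔ Cc (g x) (g y) (g z)) ∧ ∀ x, g (v x) = w x) ∧
    -- (3) examples: rooted triples are in FP; rooted triples with the relation `the first split of
    -- x, y, z, u has an even number of them on each side` are not in FPC; the quartet relation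
    -- alone is not in FPC
    ∀ c : ℚ → Bool, InFP (CSP (Cst c)) ∧ ¬ InFPC (CSP (withR (Even4 (c := c)))) ∧
      ¬ InFPC (CSP (Qst c)) := by
  refine ⟨fun c σ 𝔅 h => main 𝔅 h, fun c X _ v w h => homog h, fun c => ⟨inFP_Cst, ?_, ?_⟩⟩
  · exact not_inFPC_Even4
  · exact not_inFPC_Qst

end Pool.Agent.Results.MP_8dbde4_lc.PhylogenyCSPs
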